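import Pool.Agent.Helper48.AED.Spec3

set_option autoImplicit false

open Finset Matrix Pool.AED48

namespace Pool.Agent.Helper40.AED.MOB

/-- cosines of `π x / 4` -/
def Ct (s : ℝ) : Fin 8 → ℝ := ![1, s, 0, -s, -1, -s, 0, s]
/-- sines of `π x / 4` -/
def St (s : ℝ) : Fin 8 → ℝ := ![0, s, 1, s, 0, -s, -1, -s]
/-- cosines of `π x / 2` -/
def C2t : Fin 8 → ℝ := ![1, 0, -1, 0, 1, 0, -1, 0]
/-- sines of `π x / 2` -/
def S2t : Fin 8 → ℝ := ![0, 1, 0, -1, 0, 1, 0, -1]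

/-- the type of a pair: equal, at distance one, opposite, neighbours -/
def idx : Fin 8 → Fin 8 → Fin 4 := ![
  ![0, 3, 1, 1, 2, 1, 1, 3],
  ![3, 0, 3, 1, 1, 2, 1, 1],
  ![1, 3, 0, 3, 1, 1, 2, 1],
  ![1, 1, 3, 0, 3, 1, 1, 2],
  ![2, 1, 1, 3, 0, 3, 1, 1],
  ![1, 2, 1, 1, 3, 0, 3, 1],
  ![1, 1, 2, 1, 1, 3, 0, 3],
  ![3, 1, 1, 2, 1, 1, 3, 0]]

/-- pairs at distance one -/
def far (i j : Fin 8) : Prop := idx i j = 1

instance (i j : Fin 8) : Decidable (far i j) := by unfold far; infer_instance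

theorem far_tri : ∀ i j k : Fin 8, i ≠ j → j ≠ k → i ≠ k → far i j ∨ far j k ∨ far i k := by
  decide

/-- the squared distance -/
noncomputable def sq (s : ℝ) (i j : Fin 8) : ℝ :=
  (s - 1 / 2) * ((Ct s i - Ct s j) ^ 2 + (St s i - St s j) ^ 2) +
    (1 - s) / 2 * ((C2t i - C2t j) ^ 2 + (S2t i - S2t j) ^ 2)

theorem idx_zero : ∀ i j : Fin 8, idx i j = 0 → i = j := by decide

/-- the squared distances -/
noncomputable def val (s : ℝ) : Fin 4 → ℝ := ![0, 1, 4 * s - 2, 2 * s - 1]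

theorem sq_val (s : ℝ) (h2 : s ^ 2 = 1 / 2) : ∀ i j : Fin 8, sq s i j = val s (idx i j) := by
  have h3 : s ^ 3 = s / 2 := by
    have : s ^ 3 = s * s ^ 2 := by ring
    rw [this, h2]; ring
  intro i j
  fin_cases i <;> fin_cases j <;> simp [sq, Ct, St, C2t, S2t, val, idx] <;>
    nlinarith [h2, h3]

theorem val_le (s : ℝ) (h1 : 1 / 2 < s) (h2 : s < 3 / 4) : ∀ a : Fin 4, val s a ≤ 1 := by
  intro a
  fin_cases a <;> simp [val] <;> linarith

theorem val_ne (s : ℝ) (h1 : 1 / 2 < s) (h2 : s < 3 / 4) : ∀ a : Fin 4, val s a = 0 → a = 0 := by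
  intro a
  fin_cases a <;> simp [val] <;> intro h <;> linarith

theorem main : S_MOB := by
  set s : ℝ := √2 / 2 with hs
  have h2 : s ^ 2 = 1 / 2 := by
    rw [hs, div_pow, Real.sq_sqrt (by norm_num)]; norm_num
  have hs0 : 0 < s := by positivity
  have hs1 : 1 / 2 < s := by nlinarith
  have hs2 : s < 3 / 4 := by nlinarith
  set r1 : ℝ := √(s - 1 / 2) with hr1
  set r2 : ℝ := √((1 - s) / 2) with hr2
  have e1 : r1 ^ 2 = s - 1 / 2 := Real.sq_sqrt (by linarith)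
  have e2 : r2 ^ 2 = (1 - s) / 2 := Real.sq_sqrt (by linarith)
  have hr2p : 0 < r2 := Real.sqrt_pos.mpr (by linarith)
  let q : Fin 8 → EuclideanSpace ℝ (Fin 5) := fun x =>
    !₂[r2, r1 * Ct s x, r1 * St s x, r2 * C2t x, r2 * S2t x]
  have hdist : ∀ i j, dist (q i) (q j) ^ 2 = sq s i j := by
    intro i j
    rw [EuclideanSpace.dist_sq_eq]
    simp only [Fin.sum_univ_five, Real.dist_eq, sq_abs, q, sq]
    simp
    linear_combination ((Ct s i - Ct s j) ^ 2 + (St s i - St s j) ^ 2) * e1 +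
      ((C2t i - C2t j) ^ 2 + (S2t i - S2t j) ^ 2) * e2
  have hval := sq_val s h2
  have hle : ∀ i j, dist (q i) (q j) ≤ 1 := by
    intro i j
    have h : dist (q i) (q j) ^ 2 ≤ 1 := by
      rw [hdist, hval]
      exact val_le s hs1 hs2 _
    nlinarith [dist_nonneg (x := q i) (y := q j)]
  have hfar : ∀ i j, far i j → dist (q i) (q j) = 1 := by
    intro i j hij
    have h : dist (q i) (q j) ^ 2 = 1 := by
      rw [hdist, hval, show idx i j = 1 from hij]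
      simp [val]
    have h0 : 0 ≤ dist (q i) (q j) := dist_nonneg
    nlinarith
  refine ⟨q, ⟨?_, hle, ?_⟩, ?_, ?_⟩
  · intro i j hij
    have h : dist (q i) (q j) ^ 2 = 0 := by rw [hij, dist_self]; norm_num
    rw [hdist, hval] at h
    exact idx_zero i j (val_ne s hs1 hs2 _ h)
  · intro i j k h1 h3 h4
    rcases far_tri i j k h1 h3 h4 with h | h | h
    · exact Or.inl (hfar _ _ h)
    · exact Or.inr (Or.inl (hfar _ _ h))
    · exact Or.inr (Or.inr (hfar _ _ h))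
  · intro i
    rw [EuclideanSpace.norm_sq_eq]
    simp only [Fin.sum_univ_five, Real.norm_eq_abs, sq_abs, q]
    have hcs : ∀ i : Fin 8, Ct s i ^ 2 + St s i ^ 2 = 1 := by
      intro i
      fin_cases i <;> simp [Ct, St] <;> linarith
    have hcs2 : ∀ i : Fin 8, C2t i ^ 2 + S2t i ^ 2 = 1 := by
      intro i
      fin_cases i <;> simp [C2t, S2t]
    have ha := hcs i
    have hb := hcs2 i
    simp
    have : r2 ^ 2 + (r1 * Ct s i) ^ 2 + (r1 * St s i) ^ 2 + (r2 * C2t i) ^ 2 + (r2 * S2t i) ^ 2 =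
        r2 ^ 2 + r1 ^ 2 * (Ct s i ^ 2 + St s i ^ 2) + r2 ^ 2 * (C2t i ^ 2 + S2t i ^ 2) := by ring
    rw [ha, hb, e1, e2] at this
    first
      | linarith
      | (ring_nf at this ⊢; linarith)
  · refine ⟨!₂[1 / r2, 0, 0, 0, 0], fun i => ?_⟩
    simp [PiLp.inner_apply, Fin.sum_univ_five, q]
    field_simp

end Pool.Agent.Helper40.AED.MOB
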